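import Mathlib
import Pool.Agent.H548.TC.Low

/-! The blow-up of the projective space along the twisted cubic: the lower bound for the anticanonical height, smoothness. -/

set_option autoImplicit false

namespace Pool.Agent.Y714.TC

open Finset
open Pool.Agent.H548.TC
open Pool.Agent.H548.WM (ht Rep)

/-- the two gradients are linearly independent -/
theorem smooth (x : Fin 4 → ℂ) (y : Fin 3 → ℂ) (hx : x ≠ 0) (hy : y ≠ 0) (h : Inc x y) (s t : ℂ)
    (h1 : ∀ i : Fin 4, s * (![y 0, y 1, y 2, 0] : Fin 4 → ℂ) i + t * (![0, y 0, y 1, y 2] : Fin 4 → ℂ) i = 0)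
    (h2 : ∀ i : Fin 3, s * (![x 0, x 1, x 2] : Fin 3 → ℂ) i + t * (![x 1, x 2, x 3] : Fin 3 → ℂ) i = 0) : s = 0 ∧ t = 0 := by
  have a0 := h1 0
  have a1 := h1 1
  have a2 := h1 2
  have a3 := h1 3
  simp at a0 a1 a2 a3
  by_contra hcon
  apply hy
  have hst : s ≠ 0 ∨ t ≠ 0 := by
    by_contra h'
    push Not at h'
    exact hcon h'
  rcases hst with hs | ht'
  · have y0 : y 0 = 0 := by
      rcases a0 with h' | h'
      · exact absurd h' hs
      · exact h'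
    rw [y0, mul_zero, add_zero] at a1
    have y1 : y 1 = 0 := (mul_eq_zero.1 a1).resolve_left hs
    rw [y1, mul_zero, add_zero] at a2
    have y2 : y 2 = 0 := (mul_eq_zero.1 a2).resolve_left hs
    funext i
    fin_cases i
    · exact y0
    · exact y1
    · exact y2
  · have y2 : y 2 = 0 := by
      rcases a3 with h' | h'
      · exact absurd h' ht'
      · exact h'
    rw [y2, mul_zero, zero_add] at a2
    have y1 : y 1 = 0 := (mul_eq_zero.1 a2).resolve_left ht'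
    rw [y1, mul_zero, zero_add] at a1
    have y0 : y 0 = 0 := (mul_eq_zero.1 a1).resolve_left ht'
    funext i
    fin_cases i
    · exact y0
    · exact y1
    · exact y2

open Classical in
/-- the lower bound -/
theorem lower : ∃ (c : ℝ) (T₀ : ℝ), 0 < c ∧ 1 ≤ T₀ ∧ ∀ T : ℝ, T₀ ≤ T → ∃ P : Finset ((Fin 4 → ℤ) × (Fin 3 → ℤ)),
    (∀ t ∈ P, Rep t.1 ∧ Rep t.2 ∧ Inc t.1 t.2 ∧ hes t.1 ≠ 0 ∧ (ht t.1 : ℝ) ^ 2 * ht t.2 ≤ T) ∧ c * (T * Real.log T) ≤ #P := by
  obtain ⟨c, K, hc, hY⟩ := many_y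
  refine ⟨c / (8 * 9834496 * 24), 2 ^ (24 * (K + 3) + 42), by positivity, one_le_pow₀ (by norm_num), fun T hT => ?_⟩
  have hT1 : (1 : ℝ) ≤ T := (one_le_pow₀ (by norm_num)).trans hT
  obtain ⟨n, hn⟩ : ∃ n, n = ⌊T⌋₊ := ⟨_, rfl⟩
  have hnT : (n : ℝ) ≤ T := by rw [hn]; exact Nat.floor_le (by linarith)
  have hTn : T < n + 1 := by rw [hn]; exact Nat.lt_floor_add_one T
  have hn2 : 2 ^ (24 * (K + 3) + 42) ≤ n := by
    rw [hn]
    apply Nat.le_floor
    push_cast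
    exact hT
  have hn0 : n ≠ 0 := by
    rintro rfl
    have : 0 < 2 ^ (24 * (K + 3) + 42) := by positivity
    omega
  obtain ⟨L, hL⟩ : ∃ L, L = Nat.log 2 n := ⟨_, rfl⟩
  have hLn : 2 ^ L ≤ n := by rw [hL]; exact Nat.pow_log_le_self 2 hn0
  have hnL : n < 2 ^ (L + 1) := by rw [hL]; exact Nat.lt_pow_succ_log_self (by norm_num) n
  have hLK : 24 * (K + 3) + 42 ≤ L := by
    rw [hL]
    exact (Nat.le_log_iff_pow_le (by norm_num) hn0).2 hn2
  obtain ⟨J, hJ⟩ : ∃ J, J = Icc (K + 3) (L / 12) := ⟨_, rfl⟩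
  have hnr : (T : ℝ) / 2 ≤ n := by
    have : (1 : ℝ) ≤ n := by exact_mod_cast Nat.pos_of_ne_zero hn0
    linarith
  -- one scale
  have hone : ∀ i ∈ J, ∃ P : Finset ((Fin 4 → ℤ) × (Fin 3 → ℤ)), (∀ t ∈ P, Rep t.1 ∧ Rep t.2 ∧ Inc t.1 t.2 ∧ hes t.1 ≠ 0 ∧
      (ht t.1 : ℝ) ^ 2 * ht t.2 ≤ T ∧ ht t.2 ≤ 2 ^ i ∧ 2 ^ i < 2 * ht t.2) ∧ c / (8 * 9834496) * T ≤ #P := by
    intro i hi
    rw [hJ, mem_Icc] at hi
    have hKi : K ≤ 2 ^ i := by
      calc K ≤ i := by omega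
        _ ≤ 2 ^ i := Nat.lt_two_pow_self.le
    have h5i : 5 ≤ 2 ^ i := by
      calc 5 ≤ 2 ^ 3 := by norm_num
        _ ≤ 2 ^ i := Nat.pow_le_pow_right (by norm_num) (by omega)
    obtain ⟨Yi, hYi, hYc⟩ := hY (2 ^ i) hKi
    obtain ⟨A, hA⟩ : ∃ A, A = Nat.sqrt (n / 2 ^ i) := ⟨_, rfl⟩
    have hA1 : A ^ 2 * 2 ^ i ≤ n := by
      have h1 : A ^ 2 ≤ n / 2 ^ i := by rw [hA]; exact Nat.sqrt_le' _
      calc A ^ 2 * 2 ^ i ≤ n / 2 ^ i * 2 ^ i := Nat.mul_le_mul_right _ h1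
        _ ≤ n := Nat.div_mul_le_self _ _
    have hA2 : n < (A + 1) ^ 2 * 2 ^ i := by
      have h1 : n / 2 ^ i < (A + 1) ^ 2 := by rw [hA]; exact Nat.lt_succ_sqrt' _
      exact (Nat.div_lt_iff_lt_mul (by positivity)).1 h1
    have hA3 : 980 * (2 ^ i) ^ 2 ≤ A := by
      rw [hA, Nat.le_sqrt', Nat.le_div_iff_mul_le (by positivity)]
      have h1 : 20 + 5 * i ≤ L := by omega
      calc (980 * (2 ^ i) ^ 2) ^ 2 * 2 ^ i = 960400 * 2 ^ (5 * i) := by
            rw [mul_pow, ← pow_mul, ← pow_mul, mul_assoc, ← pow_add]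
            congr 2
            ring
        _ ≤ 2 ^ 20 * 2 ^ (5 * i) := Nat.mul_le_mul_right _ (by norm_num)
        _ = 2 ^ (20 + 5 * i) := by rw [pow_add]
        _ ≤ 2 ^ L := Nat.pow_le_pow_right (by norm_num) h1
        _ ≤ n := hLn
    have hA0 : 1 ≤ A := le_trans (by have : 0 < (2 ^ i) ^ 2 := by positivity
                                     omega) hA3
    have hA4 : (n : ℝ) ≤ 4 * (A : ℝ) ^ 2 * 2 ^ i := by
      have h1 : (A + 1) ^ 2 * 2 ^ i ≤ 4 * A ^ 2 * 2 ^ i := by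
        apply Nat.mul_le_mul_right
        nlinarith
      have h2 : n ≤ 4 * A ^ 2 * 2 ^ i := by omega
      exact_mod_cast h2
    obtain ⟨G, hG⟩ : ∃ G : (Fin 3 → ℤ) → Finset (Fin 4 → ℤ), ∀ y, G y = (FP y A).filter fun x => Rep x ∧ hes x ≠ 0 := ⟨_, fun _ => rfl⟩
    have hGc : ∀ y ∈ Yi, (A : ℝ) ^ 2 ≤ 9834496 * ((2 ^ i : ℕ) : ℝ) ^ 2 * #(G y) := by
      intro y hy
      obtain ⟨h1, h2, h3, h4, h5⟩ := hYi y hy
      rw [hG]
      exact many_pts h2 h5 h5i h3 (by omega) hA3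
    refine ⟨Yi.biUnion fun y => (G y).image fun x => (x, y), ?_, ?_⟩
    · rintro ⟨x, y⟩ hxy
      rw [mem_biUnion] at hxy
      obtain ⟨y', hy', hxy⟩ := hxy
      rw [mem_image] at hxy
      obtain ⟨x', hx', he⟩ := hxy
      rw [Prod.mk.injEq] at he
      obtain ⟨rfl, rfl⟩ := he
      rw [hG, mem_filter, mem_FP] at hx'
      obtain ⟨⟨h1, h2, h3⟩, h4, h5⟩ := hx'
      obtain ⟨k1, k2, k3, k4, k5⟩ := hYi _ hy'
      refine ⟨h4, k1, h3, h5, ?_, k3, k4⟩
      refine le_trans ?_ hnT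
      have h6 : (ht x') ^ 2 * ht y' ≤ n := by
        calc (ht x') ^ 2 * ht y' ≤ A ^ 2 * 2 ^ i := Nat.mul_le_mul (Nat.pow_le_pow_left h1 2) k3
          _ ≤ n := hA1
      exact_mod_cast h6
    · rw [card_biUnion]
      · have h1 : ∀ y ∈ Yi, #((G y).image fun x => (x, y)) = #(G y) := fun y _ =>
          card_image_of_injective _ fun x x' h => (Prod.mk.inj h).1
        rw [sum_congr rfl h1]
        push_cast
        have h2 : ∀ y ∈ Yi, (A : ℝ) ^ 2 / (9834496 * ((2 ^ i : ℕ) : ℝ) ^ 2) ≤ (#(G y) : ℝ) := by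
          intro y hy
          rw [div_le_iff₀ (by positivity)]
          have := hGc y hy
          linarith
        calc c / (8 * 9834496) * T ≤ c * ((2 ^ i : ℕ) : ℝ) ^ 3 * ((A : ℝ) ^ 2 / (9834496 * ((2 ^ i : ℕ) : ℝ) ^ 2)) := by
              have e : c * ((2 ^ i : ℕ) : ℝ) ^ 3 * ((A : ℝ) ^ 2 / (9834496 * ((2 ^ i : ℕ) : ℝ) ^ 2)) = c / (4 * 9834496) * (4 * (A : ℝ) ^ 2 * 2 ^ i) := by
                push_cast
                field_simp
              rw [e]
              have e2 : c / (8 * 9834496) * T = c / (4 * 9834496) * (T / 2) := by ring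
              rw [e2]
              apply mul_le_mul_of_nonneg_left (hnr.trans hA4)
              positivity
          _ ≤ (#Yi : ℝ) * ((A : ℝ) ^ 2 / (9834496 * ((2 ^ i : ℕ) : ℝ) ^ 2)) := mul_le_mul_of_nonneg_right hYc (by positivity)
          _ = ∑ _y ∈ Yi, ((A : ℝ) ^ 2 / (9834496 * ((2 ^ i : ℕ) : ℝ) ^ 2)) := by rw [sum_const, nsmul_eq_mul]
          _ ≤ _ := sum_le_sum h2
      · intro y _ y' _ hne
        rw [Function.onFun, disjoint_left]
        intro t h1 h2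
        obtain ⟨x, -, rfl⟩ := mem_image.1 h1
        obtain ⟨x', -, h3⟩ := mem_image.1 h2
        exact hne (Prod.mk.inj h3).2.symm
  choose! Pj hPj hPc using hone
  refine ⟨J.biUnion Pj, ?_, ?_⟩
  · intro t ht'
    rw [mem_biUnion] at ht'
    obtain ⟨i, hi, hti⟩ := ht'
    obtain ⟨a1, a2, a3, a4, a5, -⟩ := hPj i hi t hti
    exact ⟨a1, a2, a3, a4, a5⟩
  · have huniq : ∀ (i i' n : ℕ), n ≤ 2 ^ i → 2 ^ i' < 2 * n → ¬ i < i' := by
      intro i i' n e1 e2 hlt
      have h8 : 2 ^ (i + 1) ≤ 2 ^ i' := Nat.pow_le_pow_right (by norm_num) hlt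
      rw [pow_succ] at h8
      omega
    rw [card_biUnion]
    · have hJc : (L : ℝ) / 24 ≤ (#J : ℝ) := by
        rw [hJ, Nat.card_Icc, div_le_iff₀ (by norm_num)]
        have e1 : L ≤ (L / 12 + 1 - (K + 3)) * 24 := by omega
        exact_mod_cast e1
      have hLT : Real.log T ≤ L := by
        have h1 : T < 2 ^ (L + 1) := by
          have h2 : n + 1 ≤ 2 ^ (L + 1) := hnL
          have h3 : ((n : ℝ) + 1) ≤ 2 ^ (L + 1) := by exact_mod_cast h2
          linarith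
        have h2 : Real.log T ≤ Real.log (2 ^ (L + 1)) := Real.log_le_log (by linarith) h1.le
        rw [Real.log_pow] at h2
        have h3 : Real.log 2 < 0.7 := by
          have := Real.log_two_lt_d9
          linarith
        have h4 : (42 : ℝ) ≤ L := by
          have : 42 ≤ L := by omega
          exact_mod_cast this
        push_cast at h2
        have h5 : ((L : ℝ) + 1) * Real.log 2 ≤ (L + 1) * 0.7 := mul_le_mul_of_nonneg_left h3.le (by linarith)
        linarith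
      push_cast
      calc c / (8 * 9834496 * 24) * (T * Real.log T) ≤ c / (8 * 9834496 * 24) * (T * L) := by
            apply mul_le_mul_of_nonneg_left _ (by positivity)
            exact mul_le_mul_of_nonneg_left hLT (by linarith)
        _ = (L : ℝ) / 24 * (c / (8 * 9834496) * T) := by ring
        _ ≤ (#J : ℝ) * (c / (8 * 9834496) * T) := mul_le_mul_of_nonneg_right hJc (by positivity)
        _ = ∑ _i ∈ J, (c / (8 * 9834496) * T) := by rw [sum_const, nsmul_eq_mul]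
        _ ≤ _ := sum_le_sum hPc
    · intro i hi i' hi' hne
      rw [Function.onFun, disjoint_left]
      intro t h1 h2
      obtain ⟨-, -, -, -, -, c1, c2⟩ := hPj i hi t h1
      obtain ⟨-, -, -, -, -, d1, d2⟩ := hPj i' hi' t h2
      rcases lt_trichotomy i i' with h | h | h
      · exact huniq i i' _ c1 d2 h
      · exact hne h
      · exact huniq i' i _ d1 c2 h

end Pool.Agent.Y714.TC
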